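import Pool.Agent.MWA.StmtsB

/-! Squad MWA (MP_23468a_al), row RCM. -/

set_option autoImplicit false

namespace Pool.Agent.MWA.H69

open Pool.Agent.Helper14_MV Pool.Agent.Helper2_MV Pool.Agent.MVO Pool.Agent.MWL Pool.Agent.MWS
open Pool.Agent.MWA

theorem psh_two {k q p i : ℕ} {a b : ℕ → ℕ} (ha : Two2 k a q i) (hb : Two2 k b p i) :
    ∀ t ≤ k, psh k (fun r => if r < i then p else r) a t = b t := by
  intro t ht
  obtain ⟨hq, hik, ha'⟩ := ha
  obtain ⟨hp, -, hb'⟩ := hb
  rw [hb' t ht]
  unfold psh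
  have h1 : ∀ j ∈ Finset.range (k + 1), (if (fun r => if r < i then p else r) j = t then a j else 0)
      = (if j = q then (if p = t then 1 else 0) else 0) +
        (if j = i then (if i = t then 1 else 0) else 0) := by
    intro j hj
    rw [Finset.mem_range] at hj
    rw [ha' j (by omega)]
    show (if (if j < i then p else j) = t then (if j = q ∨ j = i then 1 else 0) else 0) = _
    by_cases h1 : j = q
    · subst h1
      rw [if_pos hq, if_pos (Or.inl rfl : j = j ∨ j = i), if_pos rfl, if_neg (by omega : ¬ j = i)]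
      rfl
    · by_cases h2 : j = i
      · subst h2
        rw [if_neg (lt_irrefl _), if_pos (Or.inr rfl : j = q ∨ j = j), if_neg h1, if_pos rfl,
          Nat.zero_add]
      · rw [if_neg (by tauto : ¬ (j = q ∨ j = i)), if_neg h1, if_neg h2, ite_self]
  rw [Finset.sum_congr rfl h1, Finset.sum_add_distrib, Finset.sum_ite_eq' (Finset.range (k + 1)) q,
    Finset.sum_ite_eq' (Finset.range (k + 1)) i, if_pos (Finset.mem_range.2 (by omega)),
    if_pos (Finset.mem_range.2 (by omega))]
  by_cases h3 : p = t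
  · subst h3
    rw [if_pos rfl, if_neg (by omega : ¬ i = p), if_pos (Or.inl rfl)]
  · by_cases h4 : i = t
    · subst h4
      rw [if_neg h3, if_pos rfl, if_pos (Or.inr rfl)]
    · rw [if_neg h3, if_neg h4, if_neg]
      rintro (h | h)
      · exact h3 h.symm
      · exact h4 h.symm

/-- a type which does not absorb at its last block `i` is `e_p + e_i` -/
theorem light (hab : HabStmt) (hvr : HvrStmt) (lgt : LgtStmt) {θ : FIC} (h0 : BsA θ) (hr : Rr θ)
    (hj : J3f θ 2) {k : ℕ} {b : ℕ → ℕ} {i : ℕ} (hd : 2 ≤ deg k b) (hl : Lst k b i)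
    (hn : ¬ AbF θ k b i) : ∃ p, Two2 k b p i := by
  have h1 : ∀ r ≤ i, ¬ AbF θ k b r := fun r hri h =>
    hn (hvr θ hr k b i r hri hl.1 hl.2.1 h)
  have h2 : b i = 1 := by
    by_contra h3
    have h4 := hl.2.1
    exact hn ((hab θ h0.ap).1 k b i hl.1 (by omega))
  exact lgt θ h0.ap k b i 2 hd hl h2 (Or.inr rfl) hj (fun r hri => h1 r hri.le) (fun _ => hn)

/-- Row RCM. -/
theorem rcm (trn : TrnStmt) (hab : HabStmt) (hvr : HvrStmt) (lgt : LgtStmt) (btf : BtfStmt)
    (bta : BtaStmt) : RcmStmt := by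
  intro β hB hR hJ θ hle k a b i j ha hb hla hlb hji hA
  have hBt := hB.mono hle
  have hRt : Rr θ := hle _ _ hR
  have hJt : J3f θ 2 := AbF.mono hle hJ
  have hai : AbF θ k a i := hvr θ hRt k a i j hji hla.1 hla.2.1 hA
  by_cases hbi : AbF θ k b i
  · left
    refine (btf θ k a (a2 a i) b (a2 b i) hai hbi).2 i ?_
    refine (bta θ hBt).2.2 k _ _ i hla.1 ?_ ?_
    · unfold a2
      rw [if_pos rfl]
      omega
    · unfold a2
      rw [if_pos rfl]
      omega
  · right
    obtain ⟨p, hp⟩ := light hab hvr lgt hBt hRt hJt hb hlb hbi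
    refine ⟨?_, p, hp⟩
    by_contra hn
    obtain ⟨q, hq⟩ := light hab hvr lgt hB hR hJ ha hla hn
    have hm : BMap k k (fun r => if r < i then p else r) := by
      have hpi := hp.1
      refine ⟨?_, ?_⟩
      · intro x y hxy hy
        show (if x < i then p else x) ≤ (if y < i then p else y)
        split_ifs <;> omega
      · intro x hx
        show (if x < i then p else x) ≤ k
        have := hp.2.1
        split_ifs <;> omega
    have h1 := (trn 1 (FC.ofFIC θ) k a i).2.2.2 k _ hm hla.1 hai
    have h2 := ((trn 1 (FC.ofFIC θ) k (psh k (fun r => if r < i then p else r) a)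
      ((fun r => if r < i then p else r) i)).2.2.1 b (psh_two hq hp)).1 h1
    have h3 : (fun r => if r < i then p else r) i = i := if_neg (lt_irrefl i)
    rw [h3] at h2
    exact hbi h2

end Pool.Agent.MWA.H69
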