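import Pool.Agent.MWA.StmtsQ
import Pool.Agent.Helper69_MWA.RCM

/-! Squad MWA (MP_23468a_al), row RCP (period n version of RCM). -/

set_option autoImplicit false

namespace Pool.Agent.MWA.H69P

open Pool.Agent.Helper14_MV Pool.Agent.Helper2_MV Pool.Agent.MVO Pool.Agent.MWL Pool.Agent.MWS
open Pool.Agent.MWA

/-- a type which does not absorb at its last block `i` is `e_p + e_i` -/
theorem light (hap : HapStmt) (hrp : HrpStmt) (lgp : LgpStmt) {n : ℕ} {θ : FIC} (h0 : BsP n θ)
    (hr : RrP n θ) (hj : J3n n θ 2) {k : ℕ} {b : ℕ → ℕ} {i : ℕ} (hd : 2 ≤ deg k b)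
    (hl : Lst k b i) (hn : ¬ AbN n θ k b i) : ∃ p, Two2 k b p i := by
  have h1 : ∀ r ≤ i, ¬ AbN n θ k b r := fun r hri h =>
    hn (hrp n θ h0.pos hr k b i r hri hl.1 hl.2.1 h)
  have h2 : b i = 1 := by
    by_contra h3
    have h4 := hl.2.1
    exact hn ((hap n θ h0.pos h0.ap).1 k b i hl.1 (by omega))
  exact lgp n θ h0.pos h0.ap k b i 2 hd hl h2 (Or.inr rfl) hj (fun r hri => h1 r hri.le)
    (fun _ => hn)

/-- Row RCP. -/
theorem rcp (trn : TrnStmt) (hap : HapStmt) (hrp : HrpStmt) (lgp : LgpStmt) (btf : BtfStmt)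
    (btp : BtpStmt) : RcpStmt := by
  intro n β hB hR hJ θ hle k a b i j ha hb hla hlb hji hA
  have hBt := hB.mono hle
  have hRt : RrP n θ := hle _ _ hR
  have hJt : J3n n θ 2 := AbN.mono hle hJ
  have hpos := hB.pos
  have hai : AbN n θ k a i := hrp n θ hpos hRt k a i j hji hla.1 hla.2.1 hA
  by_cases hbi : AbN n θ k b i
  · left
    refine (btf θ k a (ad n a i) b (ad n b i) hai hbi).2 i ?_
    refine (btp θ hBt.cl hBt.r0).2.2 k _ _ i hla.1 ?_ ?_
    · unfold ad
      rw [if_pos rfl]
      omega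
    · unfold ad
      rw [if_pos rfl]
      omega
  · right
    obtain ⟨p, hp⟩ := light hap hrp lgp hBt hRt hJt hb hlb hbi
    refine ⟨?_, p, hp⟩
    by_contra hn
    obtain ⟨q, hq⟩ := light hap hrp lgp hB hR hJ ha hla hn
    have hm : BMap k k (fun r => if r < i then p else r) := by
      have hpi := hp.1
      refine ⟨?_, ?_⟩
      · intro x y hxy hy
        show (if x < i then p else x) ≤ (if y < i then p else y)
        split_ifs <;> omega
      · intro x hx
        show (if x < i then p else x) ≤ k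
        have := hp.2.1
        split_ifs <;> omega
    have h1 := (trn n (FC.ofFIC θ) k a i).2.2.2 k _ hm hla.1 hai
    have h2 := ((trn n (FC.ofFIC θ) k (psh k (fun r => if r < i then p else r) a)
      ((fun r => if r < i then p else r) i)).2.2.1 b (H69.psh_two hq hp)).1 h1
    have h3 : (fun r => if r < i then p else r) i = i := if_neg (lt_irrefl i)
    rw [h3] at h2
    exact hbi h2

end Pool.Agent.MWA.H69P
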